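import Pool.Agent.H81.LE.Stm

set_option autoImplicit false

namespace Pool.Agent.H58.LE

open Finset Pool.Agent.H81.LE

/-- the push-forward of a uniform measure -/
theorem spread_of_count {E Ω : Type} [DecidableEq E] (θ : ℝ) (P : Finset E → Prop)
    (G : Finset Ω) (hG : G.Nonempty) (F : Ω → Finset E) (hP : ∀ f ∈ G, P (F f))
    (hJ : ∀ J : Finset E, ((G.filter (fun f => J ⊆ F f)).card : ℝ) ≤ θ ^ J.card * G.card) :
    Spread θ P := by
  classical
  have hG0 : (0:ℝ) < G.card := by exact_mod_cast hG.card_pos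
  refine ⟨G.image F, fun M => ((G.filter (fun f => F f = M)).card : ℝ) / G.card, ?_, ?_, ?_⟩
  · intro M hM
    obtain ⟨f, hf, rfl⟩ := mem_image.1 hM
    exact ⟨hP f hf, by positivity⟩
  · rw [← sum_div, div_eq_one_iff_eq hG0.ne', ← Nat.cast_sum]
    congr 1
    exact (card_eq_sum_card_fiberwise fun f hf => mem_image_of_mem F hf).symm
  · intro J
    rw [← sum_div, div_le_iff₀ hG0, ← Nat.cast_sum]
    refine le_trans ?_ (hJ J)
    apply le_of_eq
    congr 1
    have h1 : (G.filter (fun f => J ⊆ F f)).card =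
        ∑ M ∈ (G.image F).filter (fun M => J ⊆ M),
          ((G.filter (fun f => J ⊆ F f)).filter (fun f => F f = M)).card := by
      refine card_eq_sum_card_fiberwise fun f hf => ?_
      have hf' := mem_filter.1 hf
      exact mem_filter.2 ⟨mem_image_of_mem F hf'.1, hf'.2⟩
    rw [h1]
    refine sum_congr rfl fun M hM => ?_
    congr 1
    ext f
    simp only [mem_filter] at hM ⊢
    constructor
    · rintro ⟨a, b⟩
      exact ⟨⟨a, by rw [b]; exact hM.2⟩, b⟩
    · rintro ⟨⟨a, -⟩, b⟩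
      exact ⟨a, b⟩

/-- the union bound -/
theorem ub {α β Ω : Type} [DecidableEq Ω] (R : Finset ℕ) (S1 : ℕ → Finset α) (S2 : ℕ → Finset β)
    (E : α → β → Finset Ω) (w : ℕ → ℝ)
    (h : ∀ a ∈ R, ∀ p ∈ S1 a, ∀ q ∈ S2 a, ((E p q).card : ℝ) ≤ w a) :
    ((R.biUnion fun a => (S1 a).biUnion fun p => (S2 a).biUnion fun q => E p q).card : ℝ) ≤
      ∑ a ∈ R, ((S1 a).card : ℝ) * ((S2 a).card : ℝ) * w a := by
  have h1 : (R.biUnion fun a => (S1 a).biUnion fun p => (S2 a).biUnion fun q => E p q).card ≤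
      ∑ a ∈ R, ∑ p ∈ S1 a, ∑ q ∈ S2 a, (E p q).card :=
    card_biUnion_le.trans (sum_le_sum fun a _ => card_biUnion_le.trans
      (sum_le_sum fun p _ => card_biUnion_le))
  calc ((R.biUnion fun a => (S1 a).biUnion fun p => (S2 a).biUnion fun q => E p q).card : ℝ)
      ≤ ((∑ a ∈ R, ∑ p ∈ S1 a, ∑ q ∈ S2 a, (E p q).card : ℕ) : ℝ) := by exact_mod_cast h1
    _ = ∑ a ∈ R, ∑ p ∈ S1 a, ∑ q ∈ S2 a, ((E p q).card : ℝ) := by push_cast; rfl
    _ ≤ ∑ a ∈ R, ∑ p ∈ S1 a, ∑ q ∈ S2 a, w a :=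
        sum_le_sum fun a ha => sum_le_sum fun p hp => sum_le_sum fun q hq => h a ha p hp q hq
    _ = _ := by
        refine sum_congr rfl fun a _ => ?_
        rw [sum_const, sum_const, nsmul_eq_mul, nsmul_eq_mul]; ring

section

variable {V : Type} [DecidableEq V]

/-- the sets from which the picks are made -/
def Bs (X : Finset V) (Y : Finset ℕ) (A : V → Finset ℕ) :
    ({v // v ∈ X} ⊕ {c // c ∈ Y}) → Finset (V ⊕ ℕ)
  | .inl v => (Y ∩ A v.1).image Sum.inr
  | .inr c => (X.filter (fun v => c.1 ∈ A v)).image Sum.inl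

/-- all choices of picks -/
def Om (X : Finset V) (Y : Finset ℕ) (A : V → Finset ℕ) :
    Finset (({v // v ∈ X} ⊕ {c // c ∈ Y}) → Fin 8 → V ⊕ ℕ) :=
  Fintype.piFinset (fun i => Fintype.piFinset (fun _ : Fin 8 => Bs X Y A i))

/-- `v` picked `c` -/
def RP (X : Finset V) (Y : Finset ℕ) (f : ({v // v ∈ X} ⊕ {c // c ∈ Y}) → Fin 8 → V ⊕ ℕ)
    (x : V × ℕ) : Prop := ∃ h : x.1 ∈ X, ∃ j, f (.inl ⟨x.1, h⟩) j = .inr x.2

/-- `c` picked `v` -/
def CP (X : Finset V) (Y : Finset ℕ) (f : ({v // v ∈ X} ⊕ {c // c ∈ Y}) → Fin 8 → V ⊕ ℕ)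
    (x : V × ℕ) : Prop := ∃ h : x.2 ∈ Y, ∃ j, f (.inr ⟨x.2, h⟩) j = .inl x.1

open Classical in
/-- the picked pairs -/
noncomputable def Op (X : Finset V) (Y : Finset ℕ)
    (f : ({v // v ∈ X} ⊕ {c // c ∈ Y}) → Fin 8 → V ⊕ ℕ) : Finset (V × ℕ) :=
  (X ×ˢ Y).filter (fun x => RP X Y f x ∨ CP X Y f x)

theorem mem_Op {X : Finset V} {Y : Finset ℕ}
    {f : ({v // v ∈ X} ⊕ {c // c ∈ Y}) → Fin 8 → V ⊕ ℕ} {x : V × ℕ} :
    x ∈ Op X Y f ↔ (x.1 ∈ X ∧ x.2 ∈ Y) ∧ (RP X Y f x ∨ CP X Y f x) := by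
  classical
  unfold Op
  rw [mem_filter, mem_product]

theorem mem_Om {X : Finset V} {Y : Finset ℕ} {A : V → Finset ℕ}
    {f : ({v // v ∈ X} ⊕ {c // c ∈ Y}) → Fin 8 → V ⊕ ℕ} (hf : f ∈ Om X Y A) (i) (j) :
    f i j ∈ Bs X Y A i := by
  unfold Om at hf
  rw [Fintype.mem_piFinset] at hf
  exact Fintype.mem_piFinset.1 (hf i) j

theorem Op_mem {X : Finset V} {Y : Finset ℕ} {A : V → Finset ℕ}
    {f : ({v // v ∈ X} ⊕ {c // c ∈ Y}) → Fin 8 → V ⊕ ℕ} (hf : f ∈ Om X Y A) {x : V × ℕ}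
    (hx : x ∈ Op X Y f) : x.1 ∈ X ∧ x.2 ∈ A x.1 ∩ Y := by
  classical
  rw [mem_Op] at hx
  refine ⟨hx.1.1, mem_inter.2 ⟨?_, hx.1.2⟩⟩
  rcases hx.2 with ⟨h, j, hj⟩ | ⟨h, j, hj⟩
  · have h1 := mem_Om hf (.inl ⟨x.1, h⟩) j
    rw [hj] at h1
    simp only [Bs, mem_image, mem_inter] at h1
    obtain ⟨c, ⟨-, h2⟩, h3⟩ := h1
    have : c = x.2 := Sum.inr_injective h3
    rwa [this] at h2
  · have h1 := mem_Om hf (.inr ⟨x.2, h⟩) j
    rw [hj] at h1
    simp only [Bs, mem_image, mem_filter] at h1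
    obtain ⟨v, ⟨-, h2⟩, h3⟩ := h1
    have : v = x.1 := Sum.inl_injective h3
    rwa [this] at h2

/-- the rows of a set -/
def I1 (X : Finset V) (Y : Finset ℕ) (A' : Finset V) : Finset ({v // v ∈ X} ⊕ {c // c ∈ Y}) :=
  (A'.subtype (· ∈ X)).map Function.Embedding.inl

/-- the columns of a set -/
def I2 (X : Finset V) (Y : Finset ℕ) (W : Finset ℕ) : Finset ({v // v ∈ X} ⊕ {c // c ∈ Y}) :=
  (W.subtype (· ∈ Y)).map Function.Embedding.inr

theorem card_I1 {X : Finset V} {Y : Finset ℕ} {A' : Finset V} (h : A' ⊆ X) :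
    (I1 X Y A').card = A'.card := by
  unfold I1
  rw [card_map, card_subtype, filter_true_of_mem fun v hv => h hv]

theorem card_I2 {X : Finset V} {Y : Finset ℕ} {W : Finset ℕ} (h : W ⊆ Y) :
    (I2 X Y W).card = W.card := by
  unfold I2
  rw [card_map, card_subtype, filter_true_of_mem fun v hv => h hv]

/-- the first failure event -/
def E1 (X : Finset V) (Y : Finset ℕ) (A : V → Finset ℕ) (A' : Finset V) (U : Finset ℕ) :
    Finset (({v // v ∈ X} ⊕ {c // c ∈ Y}) → Fin 8 → V ⊕ ℕ) :=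
  (Fintype.piFinset (fun i => Fintype.piFinset (fun _ : Fin 8 => Bs X Y A i))).filter
    (fun f => ∀ i ∈ I1 X Y A', ∀ j, f i j ∈ (U.image Sum.inr : Finset (V ⊕ ℕ)))

/-- the second failure event -/
def E2 (X : Finset V) (Y : Finset ℕ) (A : V → Finset ℕ) (W : Finset ℕ) (Z : Finset V) :
    Finset (({v // v ∈ X} ⊕ {c // c ∈ Y}) → Fin 8 → V ⊕ ℕ) :=
  (Fintype.piFinset (fun i => Fintype.piFinset (fun _ : Fin 8 => Bs X Y A i))).filter
    (fun f => ∀ i ∈ I2 X Y W, ∀ j, f i j ∈ (Z.image Sum.inl : Finset (V ⊕ ℕ)))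

theorem card_Bs (X : Finset V) (Y : Finset ℕ) (A : V → Finset ℕ) (hXY : Y.card = X.card)
    (h1 : ∀ v ∈ X, 50 * (Y \ A v).card ≤ X.card)
    (h2 : ∀ c ∈ Y, 50 * (X.filter (fun v => c ∉ A v)).card ≤ X.card) (i) :
    49 / 50 * (X.card : ℝ) ≤ ((Bs X Y A i).card : ℝ) := by
  rcases i with ⟨v, hv⟩ | ⟨c, hc⟩
  · have e1 : (Bs X Y A (.inl ⟨v, hv⟩)).card = (Y ∩ A v).card :=
      card_image_of_injective _ Sum.inr_injective
    have e2 : (Y \ A v).card + (Y ∩ A v).card = Y.card := card_sdiff_add_card_inter _ _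
    have e3 := h1 v hv
    have e4 : ((Y \ A v).card : ℝ) + ((Y ∩ A v).card : ℝ) = (X.card : ℝ) := by
      rw [← hXY]; exact_mod_cast e2
    have e5 : 50 * ((Y \ A v).card : ℝ) ≤ (X.card : ℝ) := by exact_mod_cast e3
    rw [e1]
    linarith
  · have e1 : (Bs X Y A (.inr ⟨c, hc⟩)).card = (X.filter (fun v => c ∈ A v)).card :=
      card_image_of_injective _ Sum.inl_injective
    have e2 : (X.filter (fun v => c ∈ A v)).card + (X.filter (fun v => ¬ c ∈ A v)).card =
        X.card := card_filter_add_card_filter_not _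
    have e3 := h2 c hc
    have e4 : ((X.filter (fun v => c ∈ A v)).card : ℝ) +
        ((X.filter (fun v => ¬ c ∈ A v)).card : ℝ) = (X.card : ℝ) := by exact_mod_cast e2
    have e5 : 50 * ((X.filter (fun v => c ∉ A v)).card : ℝ) ≤ (X.card : ℝ) := by
      exact_mod_cast e3
    rw [e1]
    linarith

/-- the bad choices are in the union of the failure events -/
theorem bad_mem (h3 : S_hall) (X : Finset V) (Y : Finset ℕ) (A : V → Finset ℕ)
    (hXY : Y.card = X.card) (f : ({v // v ∈ X} ⊕ {c // c ∈ Y}) → Fin 8 → V ⊕ ℕ)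
    (hf : f ∈ Om X Y A) (hbad : ¬ ∃ M ⊆ Op X Y f, IsStar X (fun v => A v ∩ Y) M) :
    f ∈ (((Finset.Icc 1 X.card).filter (fun a => 2 * (a - 1) ≤ X.card)).biUnion fun a =>
        (powersetCard a X).biUnion fun A' => (powersetCard (a - 1) Y).biUnion fun U =>
          E1 X Y A A' U) ∪
      (((Finset.Icc 1 X.card).filter (fun a => 2 * (a - 1) ≤ X.card)).biUnion fun a =>
        (powersetCard a Y).biUnion fun W => (powersetCard (a - 1) X).biUnion fun Z =>
          E2 X Y A W Z) := by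
  have hO : ∀ x ∈ Op X Y f, x.1 ∈ X ∧ x.2 ∈ Y := fun x hx =>
    ⟨(Op_mem hf hx).1, (mem_inter.1 (Op_mem hf hx).2).2⟩
  rcases h3 V X Y (Op X Y f) hXY hO with ⟨M, hM, hst⟩ | ⟨A', hA', U, hU, hcard, hAU⟩
  · exfalso
    exact hbad ⟨M, hM, ⟨fun x hx => Op_mem hf (hM hx), hst.cover, hst.row, hst.col⟩⟩
  · have hA'x : A'.card ≤ X.card := card_le_card hA'
    by_cases hsmall : 2 * (A'.card - 1) ≤ X.card
    · refine mem_union_left _ ?_
      simp only [mem_biUnion, mem_filter, mem_Icc, mem_powersetCard]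
      refine ⟨A'.card, ⟨⟨by omega, hA'x⟩, hsmall⟩, A', ⟨hA', rfl⟩, U, ⟨hU, by omega⟩, ?_⟩
      unfold E1
      rw [mem_filter]
      refine ⟨hf, fun i hi j => ?_⟩
      unfold I1 at hi
      simp only [mem_map, mem_subtype] at hi
      obtain ⟨⟨v, hv⟩, hvA, rfl⟩ := hi
      have h1 := mem_Om hf (.inl ⟨v, hv⟩) j
      simp only [Bs, mem_image, mem_inter] at h1
      obtain ⟨c, ⟨hc, -⟩, hfc⟩ := h1
      have h2 : (v, c) ∈ Op X Y f := by
        rw [mem_Op]
        exact ⟨⟨hv, hc⟩, Or.inl ⟨hv, j, hfc.symm⟩⟩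
      exact mem_image.2 ⟨c, hAU _ h2 hvA, hfc⟩
    · refine mem_union_right _ ?_
      simp only [mem_biUnion, mem_filter, mem_Icc, mem_powersetCard]
      have hW : (Y \ U).card = X.card - U.card := by
        rw [card_sdiff_of_subset hU, hXY]
      have hZ : (X \ A').card = X.card - A'.card := card_sdiff_of_subset hA'
      refine ⟨(Y \ U).card, ⟨⟨by omega, by omega⟩, by omega⟩, Y \ U, ⟨sdiff_subset, rfl⟩,
        X \ A', ⟨sdiff_subset, by omega⟩, ?_⟩
      unfold E2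
      rw [mem_filter]
      refine ⟨hf, fun i hi j => ?_⟩
      unfold I2 at hi
      simp only [mem_map, mem_subtype] at hi
      obtain ⟨⟨c, hc⟩, hcW, rfl⟩ := hi
      have h1 := mem_Om hf (.inr ⟨c, hc⟩) j
      simp only [Bs, mem_image, mem_filter] at h1
      obtain ⟨v, ⟨hv, -⟩, hfv⟩ := h1
      have h2 : (v, c) ∈ Op X Y f := by
        rw [mem_Op]
        exact ⟨⟨hv, hc⟩, Or.inr ⟨hc, j, hfv.symm⟩⟩
      refine mem_image.2 ⟨v, mem_sdiff.2 ⟨hv, fun hvA => ?_⟩, hfv⟩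
      exact (mem_sdiff.1 hcW).2 (hAU _ h2 hvA)

open Classical in
/-- the failure probability is at most one fifth -/
theorem card_bad (h1 : S_sum) (h2 : S_uni) (h3 : S_hall) (X : Finset V) (Y : Finset ℕ)
    (A : V → Finset ℕ) (hXY : Y.card = X.card) (hX : 0 < X.card)
    (hB : ∀ i, 49 / 50 * (X.card : ℝ) ≤ ((Bs X Y A i).card : ℝ)) :
    (((Om X Y A).filter (fun f => ¬ ∃ M ⊆ Op X Y f, IsStar X (fun v => A v ∩ Y) M)).card : ℝ) ≤
      1 / 5 * (Om X Y A).card := by
  have hx : (0:ℝ) < X.card := by exact_mod_cast hX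
  have hb : (0:ℝ) < 49 / 50 * (X.card : ℝ) := by positivity
  obtain ⟨-, -, hu⟩ := h2 _ _ (Bs X Y A) _ hb hB
  set R := (Finset.Icc 1 X.card).filter (fun a => 2 * (a - 1) ≤ X.card) with hR
  set n : ℝ := ((Om X Y A).card : ℝ) with hn
  set w : ℕ → ℝ := fun a => ((((a - 1 : ℕ) : ℝ)) / (49 / 50 * X.card)) ^ (8 * a) * n with hw
  have b1 : ∀ a ∈ R, ∀ p ∈ powersetCard a X, ∀ q ∈ powersetCard (a - 1) Y,
      ((E1 X Y A p q).card : ℝ) ≤ w a := by
    intro a _ p hp q hq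
    rw [mem_powersetCard] at hp hq
    have := hu (I1 X Y p) (q.image Sum.inr)
    rw [card_I1 hp.1, card_image_of_injective _ Sum.inr_injective, hp.2, hq.2] at this
    exact this
  have b2 : ∀ a ∈ R, ∀ p ∈ powersetCard a Y, ∀ q ∈ powersetCard (a - 1) X,
      ((E2 X Y A p q).card : ℝ) ≤ w a := by
    intro a _ p hp q hq
    rw [mem_powersetCard] at hp hq
    have := hu (I2 X Y p) (q.image Sum.inl)
    rw [card_I2 hp.1, card_image_of_injective _ Sum.inl_injective, hp.2, hq.2] at this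
    exact this
  have u1 := ub R (fun a => powersetCard a X) (fun a => powersetCard (a - 1) Y) (E1 X Y A) w b1
  have u2 := ub R (fun a => powersetCard a Y) (fun a => powersetCard (a - 1) X) (E2 X Y A) w b2
  have hs := h1 X.card
  have e1 : ∑ a ∈ R, ((powersetCard a X).card : ℝ) * ((powersetCard (a - 1) Y).card : ℝ) * w a ≤
      1 / 10 * n := by
    calc ∑ a ∈ R, ((powersetCard a X).card : ℝ) * ((powersetCard (a - 1) Y).card : ℝ) * w a
        = (∑ a ∈ R, (X.card.choose a : ℝ) * (X.card.choose (a - 1) : ℝ) *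
          ((((a - 1 : ℕ) : ℝ)) / (49 / 50 * X.card)) ^ (8 * a)) * n := by
          rw [sum_mul]
          refine sum_congr rfl fun a _ => ?_
          rw [card_powersetCard, card_powersetCard, hXY, hw]
          ring
      _ ≤ 1 / 10 * n := mul_le_mul_of_nonneg_right hs (Nat.cast_nonneg _)
  have e2 : ∑ a ∈ R, ((powersetCard a Y).card : ℝ) * ((powersetCard (a - 1) X).card : ℝ) * w a ≤
      1 / 10 * n := by
    calc ∑ a ∈ R, ((powersetCard a Y).card : ℝ) * ((powersetCard (a - 1) X).card : ℝ) * w a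
        = (∑ a ∈ R, (X.card.choose a : ℝ) * (X.card.choose (a - 1) : ℝ) *
          ((((a - 1 : ℕ) : ℝ)) / (49 / 50 * X.card)) ^ (8 * a)) * n := by
          rw [sum_mul]
          refine sum_congr rfl fun a _ => ?_
          rw [card_powersetCard, card_powersetCard, hXY, hw]
          ring
      _ ≤ 1 / 10 * n := mul_le_mul_of_nonneg_right hs (Nat.cast_nonneg _)
  have hsub : (Om X Y A).filter (fun f => ¬ ∃ M ⊆ Op X Y f, IsStar X (fun v => A v ∩ Y) M) ⊆
      (R.biUnion fun a => (powersetCard a X).biUnion fun A' => (powersetCard (a - 1) Y).biUnion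
        fun U => E1 X Y A A' U) ∪
      (R.biUnion fun a => (powersetCard a Y).biUnion fun W => (powersetCard (a - 1) X).biUnion
        fun Z => E2 X Y A W Z) := by
    intro f hf
    rw [mem_filter] at hf
    have := bad_mem h3 X Y A hXY f hf.1 hf.2
    convert this
  have hc1 := (card_le_card hsub).trans (card_union_le _ _)
  have hc2 := (Nat.cast_le (α := ℝ)).2 hc1
  rw [Nat.cast_add] at hc2
  linarith

open Classical in
/-- the probability that a matching is picked -/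
theorem card_J (h2 : S_uni) (X : Finset V) (Y : Finset ℕ) (A : V → Finset ℕ) (hX : 0 < X.card)
    (hB : ∀ i, 49 / 50 * (X.card : ℝ) ≤ ((Bs X Y A i).card : ℝ)) (J : Finset (V × ℕ))
    (hJ : ∀ x ∈ J, x.1 ∈ X ∧ x.2 ∈ Y) (hr : ∀ x ∈ J, ∀ y ∈ J, x.1 = y.1 → x = y)
    (hc : ∀ x ∈ J, ∀ y ∈ J, x.2 = y.2 → x = y) :
    (((Om X Y A).filter (fun f => J ⊆ Op X Y f)).card : ℝ) ≤
      (16 / (49 / 50 * (X.card : ℝ))) ^ J.card * (Om X Y A).card := by
  have hx : (0:ℝ) < X.card := by exact_mod_cast hX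
  have hb : (0:ℝ) < 49 / 50 * (X.card : ℝ) := by positivity
  obtain ⟨-, hu, -⟩ := h2 _ _ (Bs X Y A) _ hb hB
  set e : Finset (V × ℕ) → {x // x ∈ J} → ({v // v ∈ X} ⊕ {c // c ∈ Y}) := fun J1 x =>
    if x.1 ∈ J1 then .inl ⟨x.1.1, (hJ x.1 x.2).1⟩ else .inr ⟨x.1.2, (hJ x.1 x.2).2⟩ with he
  set g : Finset (V × ℕ) → {x // x ∈ J} → V ⊕ ℕ := fun J1 x =>
    if x.1 ∈ J1 then .inr x.1.2 else .inl x.1.1 with hg
  have hei : ∀ J1, Function.Injective (e J1) := by
    intro J1 x y hxy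
    simp only [he] at hxy
    split_ifs at hxy with c1 c2 c2
    · have h5 := Sum.inl_injective hxy
      have h6 : x.1.1 = y.1.1 := congrArg Subtype.val h5
      exact Subtype.ext (hr x.1 x.2 y.1 y.2 h6)
    · have h5 := Sum.inr_injective hxy
      have h6 : x.1.2 = y.1.2 := congrArg Subtype.val h5
      exact Subtype.ext (hc x.1 x.2 y.1 y.2 h6)
  set t : Finset (V × ℕ) → ({v // v ∈ X} ⊕ {c // c ∈ Y}) → V ⊕ ℕ := fun J1 =>
    Function.extend (e J1) (g J1) (fun _ => .inr 0) with ht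
  set Ev : Finset (V × ℕ) → Finset (({v // v ∈ X} ⊕ {c // c ∈ Y}) → Fin 8 → V ⊕ ℕ) := fun J1 =>
    (Fintype.piFinset (fun i => Fintype.piFinset (fun _ : Fin 8 => Bs X Y A i))).filter
      (fun f => ∀ i ∈ (univ : Finset {x // x ∈ J}).image (e J1), ∃ j, f i j = t J1 i) with hEv
  have hcard : ∀ J1, ((Ev J1).card : ℝ) ≤
      (8 / (49 / 50 * (X.card : ℝ))) ^ J.card * (Om X Y A).card := by
    intro J1
    have h5 := hu ((univ : Finset {x // x ∈ J}).image (e J1)) (t J1)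
    rw [card_image_of_injective _ (hei J1), card_univ, Fintype.card_coe] at h5
    exact h5
  have hsub : (Om X Y A).filter (fun f => J ⊆ Op X Y f) ⊆ J.powerset.biUnion Ev := by
    intro f hf
    rw [mem_filter] at hf
    rw [mem_biUnion]
    refine ⟨J.filter (fun x => RP X Y f x), mem_powerset.2 (filter_subset _ _), ?_⟩
    simp only [hEv]
    rw [mem_filter]
    refine ⟨hf.1, fun i hi => ?_⟩
    obtain ⟨x, -, rfl⟩ := mem_image.1 hi
    have ht' : t (J.filter (fun x => RP X Y f x)) (e (J.filter (fun x => RP X Y f x)) x) =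
        g (J.filter (fun x => RP X Y f x)) x := (hei _).extend_apply _ _ _
    rw [ht']
    have hxO := hf.2 x.2
    rw [mem_Op] at hxO
    by_cases hR : RP X Y f x.1
    · have hmem : x.1 ∈ J.filter (fun x => RP X Y f x) := mem_filter.2 ⟨x.2, hR⟩
      simp only [he, hg, if_pos hmem]
      obtain ⟨h, j, hj⟩ := hR
      exact ⟨j, hj⟩
    · have hmem : x.1 ∉ J.filter (fun x => RP X Y f x) := fun h => hR (mem_filter.1 h).2
      simp only [he, hg, if_neg hmem]
      obtain ⟨h, j, hj⟩ := hxO.2.resolve_left hR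
      exact ⟨j, hj⟩
  have h6 : ((((Om X Y A).filter (fun f => J ⊆ Op X Y f)).card : ℕ) : ℝ) ≤
      ((∑ J1 ∈ J.powerset, (Ev J1).card : ℕ) : ℝ) := by
    exact_mod_cast (card_le_card hsub).trans card_biUnion_le
  refine h6.trans ?_
  push_cast
  calc ∑ J1 ∈ J.powerset, ((Ev J1).card : ℝ)
      ≤ ∑ J1 ∈ J.powerset, (8 / (49 / 50 * (X.card : ℝ))) ^ J.card * (Om X Y A).card :=
        sum_le_sum fun J1 _ => hcard J1
    _ = (2:ℝ) ^ J.card * ((8 / (49 / 50 * (X.card : ℝ))) ^ J.card * (Om X Y A).card) := by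
        rw [sum_const, card_powerset, nsmul_eq_mul]; push_cast; rfl
    _ = _ := by
        rw [← mul_assoc, ← mul_pow]
        congr 2
        ring

end

theorem t_ncm (h1 : S_sum) (h2 : S_uni) (h3 : S_hall) : S_ncm := by
  classical
  intro V _ X Y A hXY hA1 hA2
  rcases Nat.eq_zero_or_pos X.card with h0 | hX
  · have hX0 : X = ∅ := card_eq_zero.1 h0
    subst hX0
    refine ⟨{∅}, fun _ => 1, ?_, by simp, ?_⟩
    · intro M hM
      rw [mem_singleton] at hM
      subst hM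
      exact ⟨⟨by simp, by simp, by simp, by simp⟩, zero_le_one⟩
    · intro J
      by_cases hJ : J = ∅
      · subst hJ; simp
      · have : ({∅} : Finset (Finset (V × ℕ))).filter (fun M => J ⊆ M) = ∅ := by
          rw [filter_eq_empty_iff]
          intro M hM hJM
          rw [mem_singleton] at hM
          subst hM
          exact hJ (subset_empty.1 hJM)
        rw [this, sum_empty]
        positivity
  have hx : (0:ℝ) < X.card := by exact_mod_cast hX
  have hB := card_Bs X Y A hXY hA1 hA2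
  have hb : (0:ℝ) < 49 / 50 * (X.card : ℝ) := by positivity
  have hOm : 0 < (Om X Y A).card := (h2 _ _ (Bs X Y A) _ hb hB).1
  have hOm' : (0:ℝ) < (Om X Y A).card := by exact_mod_cast hOm
  have hbad := card_bad h1 h2 h3 X Y A hXY hX hB
  set good : (({v // v ∈ X} ⊕ {c // c ∈ Y}) → Fin 8 → V ⊕ ℕ) → Prop := fun f =>
    ∃ M ⊆ Op X Y f, IsStar X (fun v => A v ∩ Y) M with hgood
  set G := (Om X Y A).filter good with hG
  have hsplit : (G.card : ℝ) + (((Om X Y A).filter (fun f => ¬ good f)).card : ℝ) =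
      (Om X Y A).card := by
    exact_mod_cast card_filter_add_card_filter_not (s := Om X Y A) good
  have hG4 : 4 / 5 * ((Om X Y A).card : ℝ) ≤ G.card := by
    have : (((Om X Y A).filter (fun f => ¬ good f)).card : ℝ) ≤ 1 / 5 * (Om X Y A).card := hbad
    linarith
  have hGpos : (0:ℝ) < G.card := by linarith
  have hGne : G.Nonempty := by
    rw [← card_pos]; exact_mod_cast hGpos
  set F : (({v // v ∈ X} ⊕ {c // c ∈ Y}) → Fin 8 → V ⊕ ℕ) → Finset (V × ℕ) := fun f =>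
    if h : good f then h.choose else ∅ with hF
  have hFs : ∀ f ∈ G, F f ⊆ Op X Y f ∧ IsStar X (fun v => A v ∩ Y) (F f) := by
    intro f hf
    have hg : good f := (mem_filter.1 hf).2
    simp only [hF, dif_pos hg]
    exact hg.choose_spec
  refine spread_of_count _ _ G hGne F (fun f hf => (hFs f hf).2) ?_
  intro J
  by_cases hJ0 : J = ∅
  · subst hJ0; simp
  by_cases hJ : (∀ x ∈ J, x.1 ∈ X ∧ x.2 ∈ Y) ∧ (∀ x ∈ J, ∀ y ∈ J, x.1 = y.1 → x = y) ∧
      (∀ x ∈ J, ∀ y ∈ J, x.2 = y.2 → x = y)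
  · have k1 := card_J h2 X Y A hX hB J hJ.1 hJ.2.1 hJ.2.2
    have k2 : ((G.filter (fun f => J ⊆ F f)).card : ℝ) ≤
        (((Om X Y A).filter (fun f => J ⊆ Op X Y f)).card : ℝ) := by
      have : G.filter (fun f => J ⊆ F f) ⊆ (Om X Y A).filter (fun f => J ⊆ Op X Y f) := by
        intro f hf
        rw [mem_filter] at hf ⊢
        exact ⟨(mem_filter.1 hf.1).1, hf.2.trans (hFs f hf.1).1⟩
      exact_mod_cast card_le_card this
    have hJ1 : 1 ≤ J.card := card_pos.2 (nonempty_iff_ne_empty.2 hJ0)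
    have k3 : (5 / 4 : ℝ) ≤ (5 / 4) ^ J.card := by
      calc (5 / 4 : ℝ) = (5 / 4) ^ 1 := (pow_one _).symm
        _ ≤ (5 / 4) ^ J.card := pow_le_pow_right₀ (by norm_num) hJ1
    calc ((G.filter (fun f => J ⊆ F f)).card : ℝ)
        ≤ (16 / (49 / 50 * (X.card : ℝ))) ^ J.card * (Om X Y A).card := k2.trans k1
      _ ≤ (16 / (49 / 50 * (X.card : ℝ))) ^ J.card * (5 / 4 * G.card) := by
          refine mul_le_mul_of_nonneg_left ?_ (by positivity)
          linarith
      _ ≤ (16 / (49 / 50 * (X.card : ℝ))) ^ J.card * ((5 / 4) ^ J.card * G.card) := by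
          refine mul_le_mul_of_nonneg_left ?_ (by positivity)
          exact mul_le_mul_of_nonneg_right k3 hGpos.le
      _ = (16 / (49 / 50 * (X.card : ℝ)) * (5 / 4)) ^ J.card * G.card := by
          rw [mul_pow]; ring
      _ ≤ (100 / (X.card : ℝ)) ^ J.card * G.card := by
          refine mul_le_mul_of_nonneg_right (pow_le_pow_left₀ (by positivity) ?_ _) hGpos.le
          rw [div_mul_eq_mul_div, div_le_div_iff₀ hb hx]
          nlinarith
  · have : G.filter (fun f => J ⊆ F f) = ∅ := by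
      rw [filter_eq_empty_iff]
      intro f hf hJF
      apply hJ
      obtain ⟨hF1, hF2⟩ := hFs f hf
      refine ⟨fun x hx' => ?_, fun x hx' y hy' h => hF2.row x (hJF hx') y (hJF hy') h,
        fun x hx' y hy' h => hF2.col x (hJF hx') y (hJF hy') h⟩
      have := hF2.mem x (hJF hx')
      exact ⟨this.1, (mem_inter.1 this.2).2⟩
    rw [this]
    simp only [card_empty, Nat.cast_zero]
    positivity

end Pool.Agent.H58.LE

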